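import Pool.Agent.helper64.PB.SpecL

set_option autoImplicit false

namespace Pool.Agent.PB

lemma NPC_const (v : Bool) (n s : ℕ) (hs : 1 ≤ s) : Size std (fun _ : Fin n → Bool => v) s := by
  refine ⟨(fun x => (gConst v).2 fun i => (Fin.elim0 i : BF n) x) :: [], ?_, hs, Or.inl ?_⟩
  · refine Prog.step [] (gConst v) (fun i => (Fin.elim0 i : BF n)) Prog.nil ?_ (fun i => Fin.elim0 i)
    cases v
    · exact Or.inl rfl
    · exact Or.inr (Or.inl rfl)
  · exact List.mem_cons_self

theorem NPC (hREN : REN_stmt) (hBIN : BIN_stmt) (hPOL : POL_stmt) : NPC_stmt := by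
  intro A hA hNP
  obtain ⟨c, hc⟩ := hNP
  obtain ⟨d, hd⟩ := hPOL 2 c
  refine ⟨d, fun n => ?_⟩
  have hdn := hd n
  have hmono : n ^ c ≤ (n + 2) ^ c := Nat.pow_le_pow_left (Nat.le_add_right n 2) c
  rcases Nat.eq_zero_or_pos n with h0 | hn
  · subst h0
    have h2 : 0 < (0 + 2) ^ c := by positivity
    refine ⟨0, Nat.zero_le _, fun _ => compl A 0 Fin.elim0, NPC_const _ _ _ (by omega), fun x => ?_⟩
    have hx : x = Fin.elim0 := funext fun i => Fin.elim0 i
    rw [hx]
    exact ⟨fun h => ⟨Fin.elim0, h⟩, fun ⟨_, h⟩ => h⟩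
  · obtain ⟨w, hw, f, hf, hfx⟩ := hc n
    have h1 := hREN (n + w) (n + w) f (n ^ c + c) (fun i =>
      (Fin.addCases (fun j => fun z : Fin (n + w) → Bool => !(z (Fin.castAdd w j)))
        (fun k => fun z : Fin (n + w) → Bool => z (Fin.natAdd n k)) i : BF (n + w))) (fun i => by
        refine Fin.addCases (fun j => ?_) (fun k => ?_) i
        · rw [Fin.addCases_left]; exact Or.inr (Or.inl ⟨_, rfl⟩)
        · rw [Fin.addCases_right]; exact Or.inl ⟨_, rfl⟩) hf
    refine ⟨w, by omega, fun z => f fun i =>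
        (Fin.addCases (fun j => fun z : Fin (n + w) → Bool => !(z (Fin.castAdd w j)))
          (fun k => fun z : Fin (n + w) → Bool => z (Fin.natAdd n k)) i : BF (n + w)) z,
      ?_, fun x => ?_⟩
    · obtain ⟨l, hl1, hl2, hl3⟩ := h1
      exact ⟨l, hl1, by omega, hl3⟩
    · have hsd : compl A n x = A n (fun i => !(x i)) := (hA n hn x).symm
      rw [hsd, hfx]
      have hap : ∀ y : Fin w → Bool, (fun i =>
          (Fin.addCases (fun j => fun z : Fin (n + w) → Bool => !(z (Fin.castAdd w j)))
            (fun k => fun z : Fin (n + w) → Bool => z (Fin.natAdd n k)) i : BF (n + w))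
            (Fin.append x y)) = Fin.append (fun i => !(x i)) y := by
        intro y
        funext i
        refine Fin.addCases (fun j => ?_) (fun k => ?_) i
        · rw [Fin.addCases_left, Fin.append_left, Fin.append_left]
        · rw [Fin.addCases_right, Fin.append_right, Fin.append_right]
      exact exists_congr fun y => by beta_reduce; rw [hap y]

end Pool.Agent.PB
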