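import Pool.Agent.helper64.PB.SpecF

set_option autoImplicit false

namespace Pool.Agent.PB

open Finset Polynomial

/-- the points over `T` on the curve with the coefficients `a` -/
def NUB_S {K : Type} [Field K] [Fintype K] [DecidableEq K] {w D : ℕ}
    (i : (Fin (w + 1) → Fin (D + 1) → K) × Finset K) : Finset (K × K) :=
  (i.2 ×ˢ (univ : Finset K)).filter fun z =>
    ∑ j : Fin (w + 1), (∑ m : Fin (D + 1), i.1 j m * z.1 ^ (m : ℕ)) * z.2 ^ (j : ℕ) = 0

/-- the samples which contain the curve -/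
def NUB_F {K : Type} [Field K] [Fintype K] [DecidableEq K] {p L G : ℕ} (h : ℕ)
    (ε : K ≃ Fin p × Fin L) {w D : ℕ} (i : (Fin (w + 1) → Fin (D + 1) → K) × Finset K) :
    Finset (Fin G → (K × Fin p → Fin L)) :=
  if w * h ≤ (NUB_S i).card then univ.filter fun ω => ∀ z ∈ NUB_S i, Ng ε ω z = true else ∅

lemma NUB_bound (hPRB : PRB_stmt) {K : Type} [Field K] [Fintype K] [DecidableEq K] {p L G : ℕ}
    (h : ℕ) (ε : K ≃ Fin p × Fin L) (hGL : G ≤ L) (hL : 1 ≤ L) {w D : ℕ}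
    (i : (Fin (w + 1) → Fin (D + 1) → K) × Finset K) :
    ((NUB_F (G := G) h ε i).card : ℝ) ≤
      ((G : ℝ) / L) ^ (w * h) * Fintype.card (Fin G → (K × Fin p → Fin L)) := by
  have hL0 : (0 : ℝ) < L := by exact_mod_cast hL
  have hGL' : (G : ℝ) / L ≤ 1 := by
    rw [div_le_one hL0]; exact_mod_cast hGL
  have hG0 : 0 ≤ (G : ℝ) / L := by positivity
  unfold NUB_F
  split_ifs with hw
  · have h1 := hPRB K p L G ε (NUB_S i)
    have h2 : (((univ.filter fun ω : Fin G → (K × Fin p → Fin L) =>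
        ∀ z ∈ NUB_S i, Ng ε ω z = true).card : ℕ) : ℝ) * (L : ℝ) ^ (NUB_S i).card ≤
        (G : ℝ) ^ (NUB_S i).card * Fintype.card (Fin G → (K × Fin p → Fin L)) := by
      exact_mod_cast h1
    rw [← le_div_iff₀ (by positivity)] at h2
    refine h2.trans ?_
    have h3 : (G : ℝ) ^ (NUB_S i).card * Fintype.card (Fin G → (K × Fin p → Fin L)) /
        (L : ℝ) ^ (NUB_S i).card =
        ((G : ℝ) / L) ^ (NUB_S i).card * Fintype.card (Fin G → (K × Fin p → Fin L)) := by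
      rw [div_pow]; ring
    rw [h3]
    exact mul_le_mul_of_nonneg_right (pow_le_pow_of_le_one hG0 hGL' hw) (Nat.cast_nonneg _)
  · rw [Finset.card_empty, Nat.cast_zero]
    positivity

/-- every accepted sample lies in one of the sets -/
lemma NUB_mem (hCRV : CRV_stmt) (hNGC : NGC_stmt) {K : Type} [Field K] [Fintype K]
    [DecidableEq K] [CharP K 2] (c p L G h : ℕ) (ε : K ≃ Fin p × Fin L)
    (hq : Fintype.card K = 2 * h) (hc : 2 * (c * (G * p) ^ 2) ≤ Fintype.card K)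
    (ω : Fin G → (K × Fin p → Fin L)) (hω : SP c (G * p) (Ng ε ω)) :
    ∃ w ∈ Finset.Icc 1 (G * p),
      ∃ i : (Fin (w + 1) → Fin (c * w ^ 2 + 1) → K) × Finset K, ω ∈ NUB_F h ε i := by
  obtain ⟨w, hw1, hw2, Λ, hdeg, T, hT, hZ⟩ := hCRV K c (G * p) (Ng ε ω) hω (hNGC K p L G ε ω)
  refine ⟨w, Finset.mem_Icc.2 ⟨hw1, hw2⟩, (fun j m => (Λ j).coeff m, T), ?_⟩
  have hev : ∀ (j : Fin (w + 1)) (α : K),
      (∑ m : Fin (c * w ^ 2 + 1), (Λ j).coeff (m : ℕ) * α ^ (m : ℕ)) = (Λ j).eval α := by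
    intro j α
    rw [Polynomial.eval_eq_sum_range' (Nat.lt_succ_of_le (hdeg j)),
      Fin.sum_univ_eq_sum_range (fun m => (Λ j).coeff m * α ^ m)]
  have hS : ∀ z : K × K, z ∈ NUB_S ((fun j m => (Λ j).coeff m, T) :
      (Fin (w + 1) → Fin (c * w ^ 2 + 1) → K) × Finset K) ↔
      z.1 ∈ T ∧ (∑ j : Fin (w + 1), (Λ j).eval z.1 * z.2 ^ (j : ℕ)) = 0 := by
    intro z
    unfold NUB_S
    rw [Finset.mem_filter, Finset.mem_product]
    simp only [hev, Finset.mem_univ, and_true]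
  have hcol : ∀ α ∈ T, ((NUB_S ((fun j m => (Λ j).coeff m, T) :
      (Fin (w + 1) → Fin (c * w ^ 2 + 1) → K) × Finset K)).filter fun z => z.1 = α).card = w := by
    intro α hα
    obtain ⟨Z, hZc, hZm, -⟩ := hZ α hα
    refine Eq.trans (Finset.card_bij (t := Z) (fun z _ => z.2) ?_ ?_ ?_) hZc
    · intro z hz
      rw [Finset.mem_filter] at hz
      obtain ⟨hz1, hz2⟩ := hz
      have h2 := ((hS z).1 hz1).2
      rw [hz2] at h2
      exact (hZm z.2).2 h2
    · intro z hz z' hz' he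
      rw [Finset.mem_filter] at hz hz'
      exact Prod.ext (hz.2.trans hz'.2.symm) he
    · intro y hy
      exact ⟨(α, y), Finset.mem_filter.2 ⟨(hS (α, y)).2 ⟨hα, (hZm y).1 hy⟩, rfl⟩, rfl⟩
  have hcard : (NUB_S ((fun j m => (Λ j).coeff m, T) :
      (Fin (w + 1) → Fin (c * w ^ 2 + 1) → K) × Finset K)).card = T.card * w := by
    rw [Finset.card_eq_sum_card_fiberwise (f := Prod.fst) (t := T)
      (fun z hz => ((hS z).1 hz).1), Finset.sum_congr rfl hcol, Finset.sum_const, smul_eq_mul]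
  have hTh : h ≤ T.card := by
    have h1 : c * w ^ 2 ≤ c * (G * p) ^ 2 :=
      Nat.mul_le_mul_left c (Nat.pow_le_pow_left hw2 2)
    omega
  unfold NUB_F
  rw [if_pos (by rw [hcard, mul_comm w h]; exact Nat.mul_le_mul_right w hTh), Finset.mem_filter]
  refine ⟨Finset.mem_univ _, fun z hz => ?_⟩
  obtain ⟨hz1, hz2⟩ := (hS z).1 hz
  obtain ⟨Z, -, hZm, hZx⟩ := hZ z.1 hz1
  exact hZx z.2 ((hZm z.2).2 hz2)

theorem NUB (hCRV : CRV_stmt) (hPRB : PRB_stmt) (hNGC : NGC_stmt) : NUB_stmt := by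
  intro K _ _ _ _ c p L G h ε hq hGL hL hc
  classical
  have h1 : Nat.card {ω : Fin G → (K × Fin p → Fin L) // SP c (G * p) (Ng ε ω)} ≤
      ∑ w ∈ Finset.Icc 1 (G * p),
        ∑ i : (Fin (w + 1) → Fin (c * w ^ 2 + 1) → K) × Finset K, (NUB_F (G := G) h ε i).card := by
    rw [Nat.card_eq_fintype_card, Fintype.card_subtype]
    refine le_trans (Finset.card_le_card (t := (Finset.Icc 1 (G * p)).biUnion fun w =>
      (univ : Finset ((Fin (w + 1) → Fin (c * w ^ 2 + 1) → K) × Finset K)).biUnion fun i =>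
        NUB_F (G := G) h ε i) ?_) ?_
    · intro ω hω
      obtain ⟨w, hw, i, hi⟩ := NUB_mem hCRV hNGC c p L G h ε hq hc ω (Finset.mem_filter.1 hω).2
      exact Finset.mem_biUnion.2 ⟨w, hw, Finset.mem_biUnion.2 ⟨i, Finset.mem_univ i, hi⟩⟩
    · exact Finset.card_biUnion_le.trans
        (Finset.sum_le_sum fun w _ => Finset.card_biUnion_le)
  have h2 : ((Nat.card {ω : Fin G → (K × Fin p → Fin L) // SP c (G * p) (Ng ε ω)} : ℕ) : ℝ) ≤
      ∑ w ∈ Finset.Icc 1 (G * p),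
        ∑ i : (Fin (w + 1) → Fin (c * w ^ 2 + 1) → K) × Finset K,
          ((NUB_F (G := G) h ε i).card : ℝ) := by
    exact_mod_cast h1
  refine h2.trans (Finset.sum_le_sum fun w _ => ?_)
  refine (Finset.sum_le_sum fun i _ => NUB_bound hPRB h ε hGL hL i).trans ?_
  rw [Finset.sum_const, Finset.card_univ, nsmul_eq_mul]
  have h3 : Fintype.card ((Fin (w + 1) → Fin (c * w ^ 2 + 1) → K) × Finset K) =
      Fintype.card K ^ ((w + 1) * (c * w ^ 2 + 1)) * 2 ^ Fintype.card K := by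
    rw [Fintype.card_prod, Fintype.card_finset, Fintype.card_fun, Fintype.card_fun,
      Fintype.card_fin, Fintype.card_fin, ← pow_mul, mul_comm (c * w ^ 2 + 1)]
  rw [h3]
  push_cast
  exact le_of_eq (by ring)

end Pool.Agent.PB
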