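import Pool.Agent.helper64.PB.SpecW

set_option autoImplicit false

namespace Pool.Agent.PB

/-- the outer function -/
def WMJ_F : BF 4 := fun y => (y 0 && y 1) || (y 0 && !(y 1) && y 2) || (!(y 0) && y 1 && y 3)

/-- the four arguments -/
def WMJ_arg {n : ℕ} (h : BF n) (i : Fin 4) : BF (n + 2) := fun z =>
  if i = 0 then z (Fin.natAdd n 0) else if i = 1 then z (Fin.natAdd n 1)
  else if i = 2 then h fun j => z (Fin.castAdd 2 j) else !(h fun j => !(z (Fin.castAdd 2 j)))

/-- the hard function -/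
def WMJ_f {n : ℕ} (h : BF n) : BF (n + 2) := fun z => WMJ_F fun i => WMJ_arg h i z

lemma WMJ_f_eq {n : ℕ} (h : BF n) (z : Fin (n + 2) → Bool) : WMJ_f h z =
    ((z (Fin.natAdd n 0) && z (Fin.natAdd n 1)) ||
      (z (Fin.natAdd n 0) && !(z (Fin.natAdd n 1)) && h fun j => z (Fin.castAdd 2 j)) ||
      (!(z (Fin.natAdd n 0)) && z (Fin.natAdd n 1) && !(h fun j => !(z (Fin.castAdd 2 j))))) := by
  unfold WMJ_f WMJ_F WMJ_arg
  simp

lemma WMJ_mono {n : ℕ} {h : BF n} (hh : Mono h) : Mono (WMJ_f h) := by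
  intro x y hxy hx
  have h1 := hxy (Fin.natAdd n 0)
  have h2 := hxy (Fin.natAdd n 1)
  have h3 := hh (fun j => x (Fin.castAdd 2 j)) (fun j => y (Fin.castAdd 2 j)) (fun j hj => hxy _ hj)
  have h4 := hh (fun j => !(y (Fin.castAdd 2 j))) (fun j => !(x (Fin.castAdd 2 j))) (fun j hj => by
    have h5 := hxy (Fin.castAdd 2 j)
    cases hx' : x (Fin.castAdd 2 j) with
    | false => rfl
    | true => rw [h5 hx'] at hj; exact hj)
  rw [WMJ_f_eq] at hx ⊢
  generalize (h fun j => x (Fin.castAdd 2 j)) = u at *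
  generalize (h fun j => y (Fin.castAdd 2 j)) = u' at *
  generalize (h fun j => !(x (Fin.castAdd 2 j))) = v at *
  generalize (h fun j => !(y (Fin.castAdd 2 j))) = v' at *
  generalize x (Fin.natAdd n 0) = a at *
  generalize y (Fin.natAdd n 0) = a' at *
  generalize x (Fin.natAdd n 1) = b at *
  generalize y (Fin.natAdd n 1) = b' at *
  revert a a' b b' u u' v v'
  decide

lemma WMJ_selfDual {n : ℕ} (h : BF n) : SelfDual (WMJ_f h) := by
  intro x
  rw [WMJ_f_eq, WMJ_f_eq]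
  simp only [Bool.not_not]
  generalize (h fun j => x (Fin.castAdd 2 j)) = u
  generalize (h fun j => !(x (Fin.castAdd 2 j))) = v
  generalize x (Fin.natAdd n 0) = a
  generalize x (Fin.natAdd n 1) = b
  revert a b u v
  decide

lemma WMJ_le {G : Set Gate} {n : ℕ} {f : BF n} {s t : ℕ} (h : Size G f s) (hst : s ≤ t) :
    Size G f t := by
  obtain ⟨l, h1, h2, h3⟩ := h
  exact ⟨l, h1, h2.trans hst, h3⟩

lemma WMJ_var (G : Set Gate) (n : ℕ) (j : Fin n) : Size G (fun x : Fin n → Bool => x j) 0 :=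
  ⟨[], Prog.nil, le_rfl, Or.inr ⟨j, rfl⟩⟩

lemma WMJ_res {n : ℕ} (h : BF n) : (fun x : Fin n → Bool => WMJ_f h fun i =>
    (Fin.addCases (fun j => fun x : Fin n → Bool => x j)
      (fun k : Fin 2 => fC (decide (k = 0)) n) i : BF n) x) = h := by
  funext x
  rw [WMJ_f_eq]
  simp only [Fin.addCases_left, Fin.addCases_right]
  simp [fC]

theorem WMJ (hSDG : SDG_stmt) (hMTR : MTR_stmt) (hCMP : CMP_stmt) (hRST : RST_stmt)
    (hDNF : DNF_stmt) : WMJ_stmt := by
  intro G hG hM hMaj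
  obtain ⟨c0, hc0⟩ := hDNF.1 4 WMJ_F
  obtain ⟨c1, hc1⟩ := hDNF.1 1 fNot
  obtain ⟨c2, hc2⟩ := hMTR G hG hM
  refine ⟨c0 + 2 * c1 + c2 + 5, fun n h hn hh => ?_⟩
  have hn2 : n + 2 ≤ (c0 + 2 * c1 + c2 + 5) * n := by nlinarith
  refine ⟨n + 2, by omega, hn2, WMJ_f h, hSDG G hMaj (n + 2) (by omega) _ (WMJ_mono hh)
    (WMJ_selfDual h), fun s hs => ?_, fun s hs => ?_⟩
  · have e2 : Size std (fun z : Fin (n + 2) → Bool => h fun j => z (Fin.castAdd 2 j)) s := by
      have := hCMP std n (n + 2) h (fun j => fun z => z (Fin.castAdd 2 j)) s (fun _ => 0) hs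
        (fun j => WMJ_var std (n + 2) (Fin.castAdd 2 j))
      exact WMJ_le this (by simp)
    have e3 : ∀ j : Fin n, Size std (fun z : Fin (n + 2) → Bool => !(z (Fin.castAdd 2 j))) c1 := by
      intro j
      have := hCMP std 1 (n + 2) fNot (fun _ => fun z => z (Fin.castAdd 2 j)) c1 (fun _ => 0) hc1
        (fun _ => WMJ_var std (n + 2) (Fin.castAdd 2 j))
      exact WMJ_le this (by simp)
    have e4 : Size std (fun z : Fin (n + 2) → Bool => h fun j => !(z (Fin.castAdd 2 j)))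
        (s + n * c1) := by
      have := hCMP std n (n + 2) h (fun j => fun z => !(z (Fin.castAdd 2 j))) s (fun _ => c1) hs e3
      exact WMJ_le this (by simp)
    have e5 : Size std (fun z : Fin (n + 2) → Bool => !(h fun j => !(z (Fin.castAdd 2 j))))
        (c1 + (s + n * c1)) := by
      have := hCMP std 1 (n + 2) fNot (fun _ => fun z => h fun j => !(z (Fin.castAdd 2 j))) c1
        (fun _ => s + n * c1) hc1 (fun _ => e4)
      exact WMJ_le this (by simp)
    have e6 := hCMP std 4 (n + 2) WMJ_F (WMJ_arg h) c0 ![0, 0, s, c1 + (s + n * c1)] hc0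
      (fun i => by
        fin_cases i
        · exact WMJ_var std (n + 2) (Fin.natAdd n 0)
        · exact WMJ_var std (n + 2) (Fin.natAdd n 1)
        · exact e2
        · exact e5)
    refine WMJ_le e6 ?_
    have h7 : ∑ i, (![0, 0, s, c1 + (s + n * c1)] : Fin 4 → ℕ) i = s + (c1 + (s + n * c1)) := by
      simp [Fin.sum_univ_four]
    rw [h7]
    nlinarith [Nat.zero_le (c2 * s), Nat.zero_le (c2 * n), Nat.zero_le (c0 * s),
      Nat.zero_le (c1 * s), Nat.mul_le_mul_left c0 hn, Nat.mul_le_mul_left c1 hn]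
  · have e1 := hc2 (n + 2) (WMJ_f h) s hs
    have e2 := (hRST (n + 2) n (WMJ_f h) (c2 * s) (fun i =>
      (Fin.addCases (fun j => fun x : Fin n → Bool => x j)
        (fun k : Fin 2 => fC (decide (k = 0)) n) i : BF n)) (fun i => by
        refine Fin.addCases (fun j => ?_) (fun k => ?_) i
        · rw [Fin.addCases_left]; exact Or.inl ⟨j, rfl⟩
        · rw [Fin.addCases_right]; exact Or.inr ⟨_, rfl⟩)).1 e1
    rw [WMJ_res] at e2
    refine WMJ_le e2 ?_
    nlinarith [Nat.zero_le (c0 * s), Nat.zero_le (c1 * s)]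

end Pool.Agent.PB
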